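import Mathlib

/-!
Room Cardy, block B1 (helper190): Taylor expansions with analytic remainder on a closed ball.
-/

namespace Pool.Agent.H190R3.Cardy

open Finset Metric Real

/-- `f` has the Taylor series `φ` at `1`, with differentiable remainders on `U`. -/
def Rel (U : Set ℂ) (f : ℂ → ℂ) (φ : PowerSeries ℂ) : Prop :=
  ∀ n : ℕ, ∃ g : ℂ → ℂ, DifferentiableOn ℂ g U ∧
    ∀ z ∈ U, f z = (PowerSeries.trunc n φ).eval (z - 1) + (z - 1)^n * g z

/-- a Taylor polynomial with the right lower coefficients suffices -/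
theorem Rel.of_poly {U : Set ℂ} {f : ℂ → ℂ} {φ : PowerSeries ℂ}
    (h : ∀ n : ℕ, ∃ (A : Polynomial ℂ) (g : ℂ → ℂ), (∀ k < n, A.coeff k = PowerSeries.coeff k φ) ∧
      DifferentiableOn ℂ g U ∧ ∀ z ∈ U, f z = A.eval (z - 1) + (z - 1)^n * g z) : Rel U f φ := by
  intro n
  obtain ⟨A, g, hA, hg, hf⟩ := h n
  have h1 : (Polynomial.X : Polynomial ℂ)^n ∣ A - PowerSeries.trunc n φ := by
    rw [Polynomial.X_pow_dvd_iff]
    intro d hd
    rw [Polynomial.coeff_sub, hA d hd, PowerSeries.coeff_trunc, if_pos hd, sub_self]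
  obtain ⟨B, hB⟩ := h1
  refine ⟨fun z => g z + B.eval (z - 1), ?_, ?_⟩
  · refine hg.add ?_
    exact (B.differentiable.comp (by fun_prop : Differentiable ℂ (fun z : ℂ => z - 1))).differentiableOn
  · intro z hz
    have h2 : A = PowerSeries.trunc n φ + Polynomial.X^n * B := by rw [← hB]; ring
    rw [hf z hz, h2]
    simp only [Polynomial.eval_add, Polynomial.eval_mul, Polynomial.eval_pow, Polynomial.eval_X]
    ring

theorem Rel.add {U : Set ℂ} {f g : ℂ → ℂ} {φ ψ : PowerSeries ℂ} (hf : Rel U f φ) (hg : Rel U g ψ) :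
    Rel U (fun z => f z + g z) (φ + ψ) := by
  intro n
  obtain ⟨f1, h1, h2⟩ := hf n
  obtain ⟨g1, h3, h4⟩ := hg n
  refine ⟨fun z => f1 z + g1 z, h1.add h3, fun z hz => ?_⟩
  show f z + g z = _ + (z-1)^n * (f1 z + g1 z)
  rw [h2 z hz, h4 z hz, map_add, Polynomial.eval_add]
  ring

theorem Rel.mul {U : Set ℂ} {f g : ℂ → ℂ} {φ ψ : PowerSeries ℂ} (hf : Rel U f φ) (hg : Rel U g ψ) :
    Rel U (fun z => f z * g z) (φ * ψ) := by
  apply Rel.of_poly
  intro n
  obtain ⟨f1, h1, h2⟩ := hf n
  obtain ⟨g1, h3, h4⟩ := hg n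
  refine ⟨PowerSeries.trunc n φ * PowerSeries.trunc n ψ,
    fun z => (PowerSeries.trunc n φ).eval (z - 1) * g1 z + f1 z * ((PowerSeries.trunc n ψ).eval (z - 1))
      + (z - 1)^n * (f1 z * g1 z), ?_, ?_, ?_⟩
  · intro k hk
    rw [← Polynomial.coeff_coe, Polynomial.coe_mul, ← PowerSeries.coeff_mul_eq_coeff_trunc_mul_trunc _ _ hk]
  · have hP : ∀ P : Polynomial ℂ, DifferentiableOn ℂ (fun z : ℂ => P.eval (z - 1)) U := fun P =>
      (P.differentiable.comp (by fun_prop : Differentiable ℂ (fun z : ℂ => z - 1))).differentiableOn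
    have hQ : DifferentiableOn ℂ (fun z : ℂ => (z-1)^n) U := by fun_prop
    exact (((hP _).mul h3).add (h1.mul (hP _))).add (hQ.mul (h1.mul h3))
  · intro z hz
    rw [h2 z hz, h4 z hz, Polynomial.eval_mul]
    ring

theorem Rel.const {U : Set ℂ} (c : ℂ) : Rel U (fun _ => c) (PowerSeries.C c) := by
  apply Rel.of_poly
  intro n
  refine ⟨Polynomial.C c, fun _ => 0, ?_, differentiableOn_const _, ?_⟩
  · intro k _
    rw [← Polynomial.coeff_coe, Polynomial.coe_C]
  · intro z _; simp

theorem Rel.id {U : Set ℂ} : Rel U (fun z => z) (1 + PowerSeries.X) := by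
  apply Rel.of_poly
  intro n
  refine ⟨1 + Polynomial.X, fun _ => 0, ?_, differentiableOn_const _, ?_⟩
  · intro k _
    rw [← Polynomial.coeff_coe, Polynomial.coe_add, Polynomial.coe_one, Polynomial.coe_X]
  · intro z _; simp

theorem Rel.inv {U : Set ℂ} {f : ℂ → ℂ} {φ : PowerSeries ℂ} (hf : Rel U f φ)
    (hd : DifferentiableOn ℂ f U) (h0 : ∀ z ∈ U, f z ≠ 0) (hφ : PowerSeries.constantCoeff φ ≠ 0) :
    Rel U (fun z => (f z)⁻¹) φ⁻¹ := by
  apply Rel.of_poly
  intro n
  obtain ⟨f1, h1, h2⟩ := hf n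
  -- `A * A' = 1 + X^n B`
  obtain ⟨B, hB⟩ : (Polynomial.X : Polynomial ℂ)^n ∣
      PowerSeries.trunc n φ * PowerSeries.trunc n φ⁻¹ - 1 := by
    rw [Polynomial.X_pow_dvd_iff]
    intro d hd
    rw [Polynomial.coeff_sub, ← Polynomial.coeff_coe, Polynomial.coe_mul,
      ← PowerSeries.coeff_mul_eq_coeff_trunc_mul_trunc _ _ hd, PowerSeries.mul_inv_cancel _ hφ,
      ← Polynomial.coeff_coe, Polynomial.coe_one, sub_self]
  refine ⟨PowerSeries.trunc n φ⁻¹, fun z => - (B.eval (z - 1) + f1 z * (PowerSeries.trunc n φ⁻¹).eval (z-1)) * (f z)⁻¹, ?_, ?_, ?_⟩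
  · intro k hk
    rw [PowerSeries.coeff_trunc, if_pos hk]
  · have hP : ∀ P : Polynomial ℂ, DifferentiableOn ℂ (fun z : ℂ => P.eval (z - 1)) U := fun P =>
      (P.differentiable.comp (by fun_prop : Differentiable ℂ (fun z : ℂ => z - 1))).differentiableOn
    exact (((hP _).add (h1.mul (hP _))).neg).mul (hd.inv h0)
  · intro z hz
    have h3 := congrArg (Polynomial.eval (z-1)) hB
    simp only [Polynomial.eval_sub, Polynomial.eval_mul, Polynomial.eval_one, Polynomial.eval_pow,
      Polynomial.eval_X] at h3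
    have h4 := h2 z hz
    have h5 := h0 z hz
    field_simp
    rw [h4]
    linear_combination - h3

theorem Rel.sum_mul {U : Set ℂ} {f : ℂ → ℂ} {φ : PowerSeries ℂ} (hf : Rel U f φ) (n : ℕ) :
    Rel U (fun z => (f z)^n) (φ^n) := by
  induction n with
  | zero => simpa using Rel.const (U := U) 1
  | succ n ih =>
    simp only [pow_succ]
    exact ih.mul hf

theorem Rel.aeval {U : Set ℂ} {f : ℂ → ℂ} {φ : PowerSeries ℂ} (hf : Rel U f φ) (P : Polynomial ℂ) :
    Rel U (fun z => P.eval (f z)) (Polynomial.aeval φ P) := by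
  induction P using Polynomial.induction_on' with
  | add p q hp hq =>
    simp only [Polynomial.eval_add, map_add]
    exact hp.add hq
  | monomial n a =>
    simp only [Polynomial.eval_monomial, Polynomial.aeval_monomial]
    exact (Rel.const a).mul (hf.sum_mul n)

/-- the residue is a coefficient -/
theorem Rel.residue {r : ℝ} (hr : 0 < r) {f : ℂ → ℂ} {φ : PowerSeries ℂ}
    (hf : Rel (closedBall 1 r) f φ) (m : ℕ) :
    (∮ z in C(1, r), f z / (z - 1)^(m+1)) = 2 * π * Complex.I * PowerSeries.coeff m φ := by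
  obtain ⟨g, hg, hfg⟩ := hf (m+1)
  have hs : ∀ z ∈ sphere (1:ℂ) r, z - 1 ≠ 0 := by
    intro z hz h
    rw [mem_sphere, dist_eq_norm, h, norm_zero] at hz
    exact hr.ne hz
  have h1 : ∀ z ∈ sphere (1:ℂ) r, f z / (z - 1)^(m+1) =
      (∑ k ∈ range (m+1), PowerSeries.coeff k φ * (z - 1)^((k:ℤ) - (m+1))) + g z := by
    intro z hz
    rw [hfg z (sphere_subset_closedBall hz), add_div, mul_div_cancel_left₀ _ (pow_ne_zero _ (hs z hz)),
      Polynomial.eval_eq_sum_range' (PowerSeries.natDegree_trunc_lt φ m), sum_div]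
    congr 1
    refine sum_congr rfl fun k hk => ?_
    rw [PowerSeries.coeff_trunc, if_pos (mem_range.mp hk), zpow_sub₀ (hs z hz), zpow_natCast, mul_div_assoc]
    norm_cast
  rw [circleIntegral.integral_congr hr.le h1, circleIntegral.integral_add, circleIntegral.integral_fun_sum]
  · rw [sum_range_succ, sum_eq_zero, zero_add]
    · have h2 : (∮ z in C(1, r), g z) = 0 :=
        Complex.circleIntegral_eq_zero_of_differentiable_on_off_countable hr.le Set.countable_empty
          hg.continuousOn (fun z hz => (hg z (ball_subset_closedBall hz.1)).differentiableAt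
            (closedBall_mem_nhds_of_mem hz.1))
      rw [h2, add_zero, circleIntegral.integral_const_mul]
      have h3 : ((m:ℤ) - (m+1)) = -1 := by ring
      rw [h3]
      simp only [zpow_neg_one]
      rw [circleIntegral.integral_sub_center_inv _ hr.ne']
      ring
    · intro k hk
      rw [circleIntegral.integral_const_mul, circleIntegral.integral_sub_zpow_of_ne, mul_zero]
      have := mem_range.mp hk
      omega
  · intro k _
    apply ContinuousOn.circleIntegrable hr.le
    refine continuousOn_const.mul ?_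
    exact ContinuousOn.zpow₀ (by fun_prop) _ (fun z hz => Or.inl (hs z hz))
  · apply ContinuousOn.circleIntegrable hr.le
    refine continuousOn_finsetSum _ fun k _ => continuousOn_const.mul ?_
    exact ContinuousOn.zpow₀ (by fun_prop) _ (fun z hz => Or.inl (hs z hz))
  · apply ContinuousOn.circleIntegrable hr.le
    exact hg.continuousOn.mono sphere_subset_closedBall

end Pool.Agent.H190R3.Cardy
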