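import Pool.Agent.H190R3.Cardy.Circle
import Pool.Agent.H190R3.Cardy.Rel

/-!
Room Cardy, block B1 (helper190): confluent limit of the closed formula `R`.
-/

namespace Pool.Agent.H190R3.Cardy

open Finset Metric Real Filter Topology

/-- the properties of the symmetric functions `Z` (variables `x = X + 1/X`) which are used -/
structure ZFam (Z : List ℂ → ℂ) : Prop where
  perm : ∀ l l' : List ℂ, l.Perm l' → Z l = Z l'
  poly : ∀ l : List ℂ, ∃ P : Polynomial ℂ, ∀ x, Z (x :: l) = P.eval x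
  cont : ∀ N : ℕ, Continuous (fun u : Fin N → ℂ => Z (List.ofFn u))
  wheel : ∀ (x y : ℂ) (l : List ℂ), x^2 + x*y + y^2 = 3 →
    Z (x :: y :: l) = (l.map (fun s => s + x + y)).prod * Z l

variable (Z : List ℂ → ℂ)

/-- the closed formula -/
noncomputable def R {n : ℕ} (u : Fin (n+1) → ℂ) (φ : ℂ) (C B : List ℂ) : ℂ :=
  ∑ k, (u k - φ) * (∏ i : Fin n, ((u (k.succAbove i))^2 + u (k.succAbove i) * u k + (u k)^2 - 3) /
      (u k - u (k.succAbove i))) *
    Z (List.ofFn (fun i => u (k.succAbove i))) *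
    Z (List.ofFn (fun i => u (k.succAbove i)) ++ C) * Z (u k :: B)

/-- the integrand -/
noncomputable def Ff (q : ℂ) {n : ℕ} (u : Fin (n+1) → ℂ) (φ : ℂ) (C B : List ℂ) (z : ℂ) : ℂ :=
  (z - z⁻¹) * z⁻¹ * (z + z⁻¹ - φ) * Z ((q * z + q^2 * z⁻¹) :: List.ofFn u) *
    Z ((q^2 * z + q * z⁻¹) :: (List.ofFn u ++ C)) * Z ((z + z⁻¹) :: B) * z^(n+1) *
    ((C.map (fun v => v - (q * z + q^2 * z⁻¹))).prod)⁻¹

/-- the nodes -/
noncomputable def nodes {n : ℕ} (X : Fin (n+1) → ℂ) (j : Fin (n+1) × Bool) : ℂ :=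
  if j.2 then X j.1 else (X j.1)⁻¹

theorem ofFn_perm {n : ℕ} (u : Fin (n+1) → ℂ) (k : Fin (n+1)) :
    (List.ofFn u).Perm (u k :: List.ofFn (fun i => u (k.succAbove i))) := by
  rw [← Multiset.coe_eq_coe, ← Multiset.cons_coe]
  have h : ∀ (m : ℕ) (v : Fin m → ℂ), (↑(List.ofFn v) : Multiset ℂ) = Multiset.map v (univ : Finset (Fin m)).val := by
    intro m v
    rw [List.ofFn_eq_map]; rfl
  rw [h, h, Fin.univ_succAbove n k]
  simp only [Finset.cons_val, Multiset.map_cons, Finset.map_val, Multiset.map_map]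
  rfl

theorem q3 {q : ℂ} (hq : q^2 + q + 1 = 0) : q^3 = 1 := by linear_combination (q - 1) * hq

theorem Z1 {Z : List ℂ → ℂ} (hZ : ZFam Z) {q : ℂ} (hq : q^2 + q + 1 = 0) {n : ℕ} (u : Fin (n+1) → ℂ)
    (C : List ℂ) (k : Fin (n+1)) {y : ℂ} (hy : y ≠ 0) (hk : y + y⁻¹ = u k) :
    Z ((q * y + q^2 * y⁻¹) :: (List.ofFn u ++ C)) =
      (∏ i : Fin n, (u (k.succAbove i) - (q^2 * y + q * y⁻¹))) *
      (C.map (fun v => v - (q^2 * y + q * y⁻¹))).prod *
      Z (List.ofFn (fun i => u (k.succAbove i)) ++ C) := by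
  have h3 := q3 hq
  have hyy : y * y⁻¹ = 1 := mul_inv_cancel₀ hy
  have h1 : ((q * y + q^2 * y⁻¹) :: (List.ofFn u ++ C)).Perm
      ((q * y + q^2 * y⁻¹) :: u k :: (List.ofFn (fun i => u (k.succAbove i)) ++ C)) := by
    refine List.Perm.cons _ ?_
    have := (ofFn_perm u k).append_right C
    simpa using this
  rw [hZ.perm _ _ h1, hZ.wheel]
  · have h2 : (fun s : ℂ => s + (q * y + q^2 * y⁻¹) + u k) = fun s => s - (q^2 * y + q * y⁻¹) := by
      funext s
      rw [← hk]
      linear_combination (y + y⁻¹) * hq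
    rw [h2, List.map_append, List.prod_append]
    congr 2
    rw [List.map_ofFn, List.prod_ofFn]
    rfl
  · rw [← hk]
    have e1 : (q * y + q^2 * y⁻¹)^2 + (q * y + q^2 * y⁻¹) * (y + y⁻¹) + (y + y⁻¹)^2 =
      (q^2 + q + 1) * y^2 + (q^4 + q^2 + 1) * (y⁻¹)^2 + (2 * q^3 + q^2 + q + 2) * (y * y⁻¹) := by ring
    rw [e1, hyy]
    linear_combination (y^2 + (q^2 - q + 1) * (y⁻¹)^2 + 1) * hq + 2 * h3

theorem prod_erase {n : ℕ} (k : Fin (n+1)) (b : Bool) (g : Fin (n+1) × Bool → ℂ) :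
    ∏ j ∈ univ.erase (k, b), g j =
      g (k, !b) * ∏ i : Fin n, (g (k.succAbove i, true) * g (k.succAbove i, false)) := by
  have h : (univ.erase (k, b) : Finset (Fin (n+1) × Bool)) =
      insert (k, !b) (((univ : Finset (Fin n)).map k.succAboveEmb) ×ˢ (univ : Finset Bool)) := by
    ext ⟨i, c⟩
    simp only [mem_erase, mem_univ, and_true, mem_insert, mem_product, Finset.mem_map, true_and,
      Fin.coe_succAboveEmb, ne_eq, Prod.mk.injEq]
    constructor
    · intro h
      by_cases hik : i = k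
      · left
        refine ⟨hik, ?_⟩
        have : c ≠ b := fun hc => h ⟨hik, hc⟩
        cases c <;> cases b <;> simp_all
      · right
        exact Fin.exists_succAbove_eq hik
    · rintro (⟨h1, h2⟩ | ⟨i', hi'⟩)
      · rintro ⟨_, h3⟩
        cases c <;> cases b <;> simp_all
      · rintro ⟨h1, _⟩
        exact Fin.succAbove_ne k i' (hi'.trans h1)
  rw [h, prod_insert, prod_product, prod_map]
  · simp
  · simp only [mem_product, Finset.mem_map, mem_univ, true_and, and_true, Fin.coe_succAboveEmb, not_exists]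
    intro i
    exact Fin.succAbove_ne k i

/-- one node -/
theorem term {Z : List ℂ → ℂ} (hZ : ZFam Z) {q : ℂ} (hq : q^2 + q + 1 = 0) {n : ℕ} (X : Fin (n+1) → ℂ)
    (hX : ∀ i, X i ≠ 0) (hinj : Function.Injective (nodes X)) (φ : ℂ)
    (C B : List ℂ) (k : Fin (n+1)) (b : Bool)
    (hC : ∀ v ∈ C, v - (q * nodes X (k, b) + q^2 * (nodes X (k, b))⁻¹) ≠ 0) (u : Fin (n+1) → ℂ)
    (hu : ∀ i, u i = X i + (X i)⁻¹) :
    Ff Z q u φ C B (nodes X (k, b)) / ∏ j ∈ univ.erase (k, b), (nodes X (k, b) - nodes X j) =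
    (u k - φ) * (∏ i : Fin n, ((u (k.succAbove i))^2 + u (k.succAbove i) * u k + (u k)^2 - 3) /
      (u k - u (k.succAbove i))) *
    Z (List.ofFn (fun i => u (k.succAbove i))) *
    Z (List.ofFn (fun i => u (k.succAbove i)) ++ C) * Z (u k :: B) := by
  set y := nodes X (k, b) with hy
  have hy0 : y ≠ 0 := by
    rw [hy]; unfold nodes; split_ifs
    · exact hX _
    · exact inv_ne_zero (hX _)
  have hyk : y + y⁻¹ = u k := by
    rw [hy, hu]; unfold nodes; split_ifs <;> simp [add_comm]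
  have hynot : nodes X (k, !b) = y⁻¹ := by
    rw [hy]; unfold nodes; cases b <;> simp
  have hyne : y - y⁻¹ ≠ 0 := by
    intro h
    have h1 : nodes X (k, b) = nodes X (k, !b) := by rw [hynot, ← hy]; exact sub_eq_zero.mp h
    have h2 := hinj h1
    simp at h2
  have h3 := q3 hq
  have hyy : y * y⁻¹ = 1 := mul_inv_cancel₀ hy0
  -- the denominators
  have hden : ∏ j ∈ univ.erase (k, b), (y - nodes X j) =
      (y - y⁻¹) * (y^n * ∏ i : Fin n, (u k - u (k.succAbove i))) := by
    rw [prod_erase, hynot]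
    congr 1
    have : ∀ i : Fin n, (y - nodes X (k.succAbove i, true)) * (y - nodes X (k.succAbove i, false)) =
        y * (u k - u (k.succAbove i)) := by
      intro i
      have hx := mul_inv_cancel₀ (hX (k.succAbove i))
      simp only [nodes, if_true, Bool.false_eq_true, if_false]
      rw [← hyk, hu]
      linear_combination hx - hyy
    rw [prod_congr rfl (fun i _ => this i), prod_mul_distrib, prod_const]
    simp
  have hdiff : ∀ i : Fin n, u k - u (k.succAbove i) ≠ 0 := by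
    intro i h
    have h1 : (y - nodes X (k.succAbove i, true)) * (y - nodes X (k.succAbove i, false)) =
        y * (u k - u (k.succAbove i)) := by
      have hx := mul_inv_cancel₀ (hX (k.succAbove i))
      simp only [nodes, if_true, Bool.false_eq_true, if_false]
      rw [← hyk, hu]
      linear_combination hx - hyy
    rw [h, mul_zero, mul_eq_zero, hy] at h1
    rcases h1 with h1 | h1
    · have := hinj (sub_eq_zero.mp h1)
      simp only [Prod.mk.injEq] at this
      exact Fin.succAbove_ne k i this.1.symm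
    · have := hinj (sub_eq_zero.mp h1)
      simp only [Prod.mk.injEq] at this
      exact Fin.succAbove_ne k i this.1.symm
  have hq2 : (q^2)^2 + q^2 + 1 = 0 := by linear_combination (q^2 - q + 1) * hq
  have hA := Z1 hZ hq u [] k hy0 hyk
  have hB := Z1 hZ hq2 u C k hy0 hyk
  have e4 : (q^2)^2 = q := by linear_combination q * h3
  rw [e4] at hB
  simp only [List.append_nil, List.map_nil, List.prod_nil, mul_one] at hA
  have hprod : (∏ i : Fin n, (u (k.succAbove i) - (q^2 * y + q * y⁻¹))) *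
      (∏ i : Fin n, (u (k.succAbove i) - (q * y + q^2 * y⁻¹))) =
      ∏ i : Fin n, ((u (k.succAbove i))^2 + u (k.succAbove i) * u k + (u k)^2 - 3) := by
    rw [← prod_mul_distrib]
    refine prod_congr rfl fun i _ => ?_
    rw [← hyk]
    have e1 : (u (k.succAbove i) - (q^2 * y + q * y⁻¹)) * (u (k.succAbove i) - (q * y + q^2 * y⁻¹)) =
      (u (k.succAbove i))^2 - (q^2 + q) * (y + y⁻¹) * (u (k.succAbove i)) + q^3 * (y^2 + (y⁻¹)^2) +
        (q^4 + q^2) * (y * y⁻¹) := by ring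
    rw [e1, h3, show q^4 = q by linear_combination q * h3]
    linear_combination (-(y + y⁻¹) * (u (k.succAbove i)) + y * y⁻¹) * hq - 3 * hyy
  have hCp : (C.map (fun v => v - (q * y + q^2 * y⁻¹))).prod ≠ 0 := by
    rw [Ne, List.prod_eq_zero_iff]
    intro h
    obtain ⟨v, hv, hv'⟩ := List.mem_map.mp h
    exact hC v hv hv'
  rw [hden, prod_div_distrib, ← hprod]
  unfold Ff
  rw [hA, hB, hyk]
  have hd : ∏ i : Fin n, (u k - u (k.succAbove i)) ≠ 0 := prod_ne_zero_iff.mpr (fun i _ => hdiff i)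
  have hyn : y^n ≠ 0 := pow_ne_zero _ hy0
  generalize (∏ i : Fin n, (u k - u (k.succAbove i))) = D at *
  generalize (C.map (fun v => v - (q * y + q^2 * y⁻¹))).prod = E at *
  generalize (∏ i : Fin n, (u (k.succAbove i) - (q^2 * y + q * y⁻¹))) = P1 at *
  generalize (∏ i : Fin n, (u (k.succAbove i) - (q * y + q^2 * y⁻¹))) = P2 at *
  rw [div_eq_iff (mul_ne_zero hyne (mul_ne_zero hyn hd))]
  rw [pow_succ]
  field_simp

/-- the sum over the nodes is `2 R` -/
theorem sum_nodes {Z : List ℂ → ℂ} (hZ : ZFam Z) {q : ℂ} (hq : q^2 + q + 1 = 0) {n : ℕ}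
    (X : Fin (n+1) → ℂ) (hX : ∀ i, X i ≠ 0) (hinj : Function.Injective (nodes X)) (φ : ℂ)
    (C B : List ℂ)
    (hC : ∀ j, ∀ v ∈ C, v - (q * nodes X j + q^2 * (nodes X j)⁻¹) ≠ 0) :
    ∑ j, Ff Z q (fun i => X i + (X i)⁻¹) φ C B (nodes X j) /
        ∏ i ∈ univ.erase j, (nodes X j - nodes X i) =
      2 * R Z (fun i => X i + (X i)⁻¹) φ C B := by
  rw [Fintype.sum_prod_type]
  simp only [Fintype.sum_bool]
  unfold R
  rw [mul_sum]
  refine sum_congr rfl fun k _ => ?_
  rw [term hZ hq X hX hinj φ C B k true (hC _) _ (fun _ => rfl),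
    term hZ hq X hX hinj φ C B k false (hC _) _ (fun _ => rfl)]
  ring

end Pool.Agent.H190R3.Cardy
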