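import Pool.Agent.H190R3.Cardy.B1

/-!
Room Cardy, block B1 (helper190): the limit.
-/

namespace Pool.Agent.H190R3.Cardy

open Finset Metric Real Filter Topology

theorem contOn_ofFn {Z : List ℂ → ℂ} (hZ : ZFam Z) {α : Type*} [TopologicalSpace α] {S : Set α} {m : ℕ}
    (f : α → Fin m → ℂ) (hf : ∀ i, ContinuousOn (fun a => f a i) S) (C : List ℂ) :
    ContinuousOn (fun a => Z (List.ofFn (f a) ++ C)) S := by
  have h1 : (fun a => Z (List.ofFn (f a) ++ C)) =
      (fun v : Fin (m + C.length) → ℂ => Z (List.ofFn v)) ∘ (fun a => Fin.append (f a) C.get) := by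
    funext a
    simp only [Function.comp]
    rw [List.ofFn_fin_append, List.ofFn_get]
  rw [h1]
  refine (hZ.cont _).comp_continuousOn ?_
  rw [continuousOn_pi]
  intro i
  refine Fin.addCases (fun i => ?_) (fun i => ?_) i
  · simp only [Fin.append_left]; exact hf i
  · simp only [Fin.append_right]; exact continuousOn_const

theorem contOn_cons {Z : List ℂ → ℂ} (hZ : ZFam Z) {α : Type*} [TopologicalSpace α] {S : Set α} {m : ℕ}
    (g : α → ℂ) (hg : ContinuousOn g S)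
    (f : α → Fin m → ℂ) (hf : ∀ i, ContinuousOn (fun a => f a i) S) (C : List ℂ) :
    ContinuousOn (fun a => Z (g a :: (List.ofFn (f a) ++ C))) S := by
  have h := contOn_ofFn hZ (fun a => (Fin.cons (g a) (f a) : Fin (m+1) → ℂ)) (S := S) (by
    intro i
    refine Fin.cases ?_ (fun i => ?_) i
    · simpa using hg
    · simpa using hf i) C
  refine h.congr fun a _ => ?_
  simp [List.ofFn_succ]

/-- the ball -/
theorem z_ne {z : ℂ} (hz : z ∈ closedBall (1:ℂ) (1/2)) : z ≠ 0 := by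
  rintro rfl
  rw [mem_closedBall, dist_eq_norm] at hz
  norm_num at hz

/-- the parameter set -/
def UU (n : ℕ) : Set (Fin (n+1) → ℂ) := {X | ∀ i, ‖X i - 1‖ < 1/4}

theorem UU_ne {n : ℕ} {X : Fin (n+1) → ℂ} (hX : X ∈ UU n) (i : Fin (n+1)) : X i ≠ 0 := by
  intro h
  have := hX i
  rw [h] at this
  norm_num at this

theorem UU_nodes {n : ℕ} {X : Fin (n+1) → ℂ} (hX : X ∈ UU n) (j : Fin (n+1) × Bool) :
    nodes X j ∈ ball (1:ℂ) (1/2) := by
  have h1 := hX j.1
  rw [mem_ball, dist_eq_norm]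
  unfold nodes
  split_ifs
  · linarith
  · have h0 := UU_ne hX j.1
    have h2 : (X j.1)⁻¹ - 1 = (1 - X j.1) * (X j.1)⁻¹ := by field_simp
    have h3 : 3/4 ≤ ‖X j.1‖ := by
      have := norm_sub_norm_le (1:ℂ) (1 - X j.1)
      rw [norm_one, show (1:ℂ) - (1 - X j.1) = X j.1 by ring, norm_sub_rev] at this
      linarith
    rw [h2, norm_mul, norm_inv, norm_sub_rev, ← div_eq_mul_inv, div_lt_iff₀ (by linarith)]
    linarith

theorem contOn_int {Z : List ℂ → ℂ} (hZ : ZFam Z) {q : ℂ} {n : ℕ} (φ : ℂ) (C B : List ℂ)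
    (hC : ∀ z ∈ closedBall (1:ℂ) (1/2), ∀ v ∈ C, v - (q * z + q^2 * z⁻¹) ≠ 0) :
    ContinuousOn (fun a : (Fin (n+1) → ℂ) × ℂ =>
      Ff Z q (fun i => a.1 i + (a.1 i)⁻¹) φ C B a.2 / ∏ j, (a.2 - nodes a.1 j))
      (UU n ×ˢ sphere (1:ℂ) (1/2)) := by
  have hz : ContinuousOn (fun a : (Fin (n+1) → ℂ) × ℂ => a.2) (UU n ×ˢ sphere (1:ℂ) (1/2)) :=
    continuous_snd.continuousOn
  have hzi : ContinuousOn (fun a : (Fin (n+1) → ℂ) × ℂ => a.2⁻¹) (UU n ×ˢ sphere (1:ℂ) (1/2)) :=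
    hz.inv₀ (fun a ha => z_ne (sphere_subset_closedBall ha.2))
  have hx : ∀ i, ContinuousOn (fun a : (Fin (n+1) → ℂ) × ℂ => a.1 i) (UU n ×ˢ sphere (1:ℂ) (1/2)) :=
    fun i => ((continuous_apply i).comp continuous_fst).continuousOn
  have hxi : ∀ i, ContinuousOn (fun a : (Fin (n+1) → ℂ) × ℂ => (a.1 i)⁻¹) (UU n ×ˢ sphere (1:ℂ) (1/2)) :=
    fun i => (hx i).inv₀ (fun a ha => UU_ne ha.1 i)
  have hu : ∀ i, ContinuousOn (fun a : (Fin (n+1) → ℂ) × ℂ => a.1 i + (a.1 i)⁻¹)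
      (UU n ×ˢ sphere (1:ℂ) (1/2)) := fun i => (hx i).add (hxi i)
  have hnodes : ∀ j, ContinuousOn (fun a : (Fin (n+1) → ℂ) × ℂ => nodes a.1 j)
      (UU n ×ˢ sphere (1:ℂ) (1/2)) := by
    intro j
    unfold nodes
    split_ifs
    · exact hx _
    · exact hxi _
  obtain ⟨Pb, hPb⟩ := hZ.poly B
  refine ContinuousOn.div ?_ ?_ ?_
  · unfold Ff
    refine ContinuousOn.mul (ContinuousOn.mul (ContinuousOn.mul (ContinuousOn.mul (ContinuousOn.mul
      (ContinuousOn.mul (ContinuousOn.mul ?_ ?_) ?_) ?_) ?_) ?_) ?_) ?_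
    · exact hz.sub hzi
    · exact hzi
    · exact (hz.add hzi).sub continuousOn_const
    · have := contOn_cons hZ (fun a : (Fin (n+1) → ℂ) × ℂ => q * a.2 + q^2 * a.2⁻¹)
        ((continuousOn_const.mul hz).add (continuousOn_const.mul hzi)) _ hu []
      simpa using this
    · exact contOn_cons hZ (fun a : (Fin (n+1) → ℂ) × ℂ => q^2 * a.2 + q * a.2⁻¹)
        ((continuousOn_const.mul hz).add (continuousOn_const.mul hzi)) _ hu C
    · simp only [hPb]
      exact Pb.continuous.comp_continuousOn (hz.add hzi)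
    · exact hz.pow _
    · refine ContinuousOn.inv₀ ?_ ?_
      · have : (fun a : (Fin (n+1) → ℂ) × ℂ => (C.map (fun v => v - (q * a.2 + q^2 * a.2⁻¹))).prod) =
            fun a => (C.map (fun v => (fun a : (Fin (n+1) → ℂ) × ℂ => v - (q * a.2 + q^2 * a.2⁻¹)) a)).prod := rfl
        rw [this]
        refine continuousOn_list_prod _ ?_
        intro v _
        exact continuousOn_const.sub ((continuousOn_const.mul hz).add (continuousOn_const.mul hzi))
      · intro a ha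
        rw [Ne, List.prod_eq_zero_iff]
        intro h
        obtain ⟨v, hv, hv'⟩ := List.mem_map.mp h
        exact hC a.2 (sphere_subset_closedBall ha.2) v hv hv'
  · exact continuousOn_finsetProd _ (fun j _ => hz.sub (hnodes j))
  · intro a ha
    rw [prod_ne_zero_iff]
    intro j _ h
    have h1 := UU_nodes ha.1 j
    rw [← sub_eq_zero.mp h, mem_ball] at h1
    have h2 := ha.2
    rw [mem_sphere] at h2
    exact absurd h2 h1.ne

theorem cont_int {Z : List ℂ → ℂ} (hZ : ZFam Z) {q : ℂ} {n : ℕ} (φ : ℂ) (C B : List ℂ)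
    (hC : ∀ z ∈ closedBall (1:ℂ) (1/2), ∀ v ∈ C, v - (q * z + q^2 * z⁻¹) ≠ 0) :
    ContinuousOn (fun X : Fin (n+1) → ℂ =>
      ∮ z in C(1, 1/2), Ff Z q (fun i => X i + (X i)⁻¹) φ C B z / ∏ j, (z - nodes X j)) (UU n) := by
  rw [continuousOn_iff_continuous_domRestrict]
  have h1 : Continuous (fun a : (UU n) × ℝ =>
      (fun b : (Fin (n+1) → ℂ) × ℂ =>
      Ff Z q (fun i => b.1 i + (b.1 i)⁻¹) φ C B b.2 / ∏ j, (b.2 - nodes b.1 j))
        ((a.1 : Fin (n+1) → ℂ), circleMap 1 (1/2) a.2)) := by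
    refine (contOn_int hZ φ C B hC).comp_continuous ?_ ?_
    · exact (continuous_subtype_val.comp continuous_fst).prodMk
        ((continuous_circleMap 1 (1/2)).comp continuous_snd)
    · intro a
      exact ⟨a.1.2, circleMap_mem_sphere 1 (by norm_num) a.2⟩
  have h2 : Continuous (fun a : (UU n) × ℝ => deriv (circleMap 1 (1/2)) a.2 •
      (fun b : (Fin (n+1) → ℂ) × ℂ =>
      Ff Z q (fun i => b.1 i + (b.1 i)⁻¹) φ C B b.2 / ∏ j, (b.2 - nodes b.1 j))
        ((a.1 : Fin (n+1) → ℂ), circleMap 1 (1/2) a.2)) := by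
    simp only [deriv_circleMap, smul_eq_mul]
    exact (((continuous_circleMap 0 (1/2)).comp continuous_snd).mul continuous_const).mul h1
  exact intervalIntegral.continuous_parametric_intervalIntegral_of_continuous' h2 0 (2 * π)

/-- the power series -/
noncomputable def Phi (q : ℂ) (n : ℕ) (φ : ℂ) (C : List ℂ) (Pa PL Pb : Polynomial ℂ) : PowerSeries ℂ :=
  ((1 + PowerSeries.X) - (1 + PowerSeries.X)⁻¹) * (1 + PowerSeries.X)⁻¹ *
    ((1 + PowerSeries.X) + (1 + PowerSeries.X)⁻¹ - PowerSeries.C φ) *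
    Polynomial.aeval (PowerSeries.C q * (1 + PowerSeries.X) +
      PowerSeries.C (q^2) * (1 + PowerSeries.X)⁻¹) Pa *
    Polynomial.aeval (PowerSeries.C (q^2) * (1 + PowerSeries.X) +
      PowerSeries.C q * (1 + PowerSeries.X)⁻¹) PL *
    Polynomial.aeval ((1 + PowerSeries.X) + (1 + PowerSeries.X)⁻¹) Pb *
    (1 + PowerSeries.X)^(n+1) *
    ((C.map (fun v => PowerSeries.C v - (PowerSeries.C q * (1 + PowerSeries.X) +
      PowerSeries.C (q^2) * (1 + PowerSeries.X)⁻¹))).prod)⁻¹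

theorem Rel.sub {U : Set ℂ} {f g : ℂ → ℂ} {φ ψ : PowerSeries ℂ} (hf : Rel U f φ) (hg : Rel U g ψ) :
    Rel U (fun z => f z - g z) (φ - ψ) := by
  have h := hf.add ((Rel.const (-1)).mul hg)
  have e : φ - ψ = φ + PowerSeries.C (-1) * ψ := by
    rw [map_neg, map_one]; ring
  rw [e]
  have e2 : (fun z => f z - g z) = (fun z => f z + (-1) * g z) := by
    funext z; ring
  rw [e2]
  exact h

theorem Rel.list_prod {U : Set ℂ} {β : Type*} (l : List β) (f : β → ℂ → ℂ) (φ : β → PowerSeries ℂ)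
    (h : ∀ b, Rel U (f b) (φ b)) : Rel U (fun z => (l.map (fun b => f b z)).prod) (l.map φ).prod := by
  induction l with
  | nil => simpa using Rel.const (U := U) 1
  | cons b l ih =>
    simp only [List.map_cons, List.prod_cons]
    exact (h b).mul ih

theorem rel_inv : Rel (closedBall (1:ℂ) (1/2)) (fun z => z⁻¹) (1 + PowerSeries.X)⁻¹ := by
  refine Rel.id.inv differentiableOn_id (fun z hz => z_ne hz) ?_
  simp

theorem rel_Ff {Z : List ℂ → ℂ} {q : ℂ} {n : ℕ} (u : Fin (n+1) → ℂ) (φ : ℂ) (C B : List ℂ)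
    (hC : ∀ z ∈ closedBall (1:ℂ) (1/2), ∀ v ∈ C, v - (q * z + q^2 * z⁻¹) ≠ 0)
    (Pa PL Pb : Polynomial ℂ) (hPa : ∀ x, Z (x :: List.ofFn u) = Pa.eval x)
    (hPL : ∀ x, Z (x :: (List.ofFn u ++ C)) = PL.eval x) (hPb : ∀ x, Z (x :: B) = Pb.eval x) :
    Rel (closedBall (1:ℂ) (1/2)) (Ff Z q u φ C B) (Phi q n φ C Pa PL Pb) := by
  unfold Ff Phi
  simp only [hPa, hPL, hPb]
  have hi := rel_inv
  have hz : Rel (closedBall (1:ℂ) (1/2)) (fun z => z) (1 + PowerSeries.X) := Rel.id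
  have hlin : ∀ a b : ℂ, Rel (closedBall (1:ℂ) (1/2)) (fun z => a * z + b * z⁻¹)
      (PowerSeries.C a * (1 + PowerSeries.X) + PowerSeries.C b * (1 + PowerSeries.X)⁻¹) := fun a b =>
    ((Rel.const a).mul hz).add ((Rel.const b).mul hi)
  refine ((((((((hz.sub hi).mul hi).mul ((hz.add hi).sub (Rel.const φ))).mul
    ((hlin q (q^2)).aeval Pa)).mul ((hlin (q^2) q).aeval PL)).mul ((hz.add hi).aeval Pb)).mul
    (hz.sum_mul (n+1))).mul (Rel.inv (Rel.list_prod C (fun v z => v - (q * z + q^2 * z⁻¹)) _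
      (fun v => (Rel.const v).sub (hlin q (q^2)))) ?_ ?_ ?_))
  · intro z hz'
    apply DifferentiableAt.differentiableWithinAt
    have hz0 := z_ne hz'
    have : ∀ l : List ℂ, DifferentiableAt ℂ (fun z : ℂ => (l.map (fun v => v - (q * z + q^2 * z⁻¹))).prod) z := by
      intro l
      induction l with
      | nil => simp
      | cons v l ih =>
        simp only [List.map_cons, List.prod_cons]
        refine DifferentiableAt.mul ?_ ih
        fun_prop (disch := assumption)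
    exact this C
  · intro z hz'
    rw [Ne, List.prod_eq_zero_iff]
    intro h
    obtain ⟨v, hv, hv'⟩ := List.mem_map.mp h
    exact hC z hz' v hv hv'
  · rw [map_list_prod, List.map_map, Ne, List.prod_eq_zero_iff]
    intro h
    obtain ⟨v, hv, hv'⟩ := List.mem_map.mp h
    apply hC 1 (by simp) v hv
    simp only [Function.comp, map_sub, map_add, map_mul, PowerSeries.constantCoeff_C, map_one,
      PowerSeries.constantCoeff_X, PowerSeries.constantCoeff_inv] at hv'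
    simpa using hv'

theorem diff_Ff {Z : List ℂ → ℂ} (hZ : ZFam Z) {q : ℂ} {n : ℕ} (u : Fin (n+1) → ℂ) (φ : ℂ) (C B : List ℂ)
    (hC : ∀ z ∈ closedBall (1:ℂ) (1/2), ∀ v ∈ C, v - (q * z + q^2 * z⁻¹) ≠ 0) :
    DifferentiableOn ℂ (Ff Z q u φ C B) (closedBall (1:ℂ) (1/2)) := by
  obtain ⟨Pa, hPa⟩ := hZ.poly (List.ofFn u)
  obtain ⟨PL, hPL⟩ := hZ.poly (List.ofFn u ++ C)
  obtain ⟨Pb, hPb⟩ := hZ.poly B
  obtain ⟨g, hg, hfg⟩ := rel_Ff (Z := Z) u φ C B hC Pa PL Pb hPa hPL hPb 0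
  refine hg.congr fun z hz => ?_
  rw [hfg z hz]
  simp

/-- **B1**: the confluent limit of the closed formula is a coefficient of a power series. -/
theorem B1 {Z : List ℂ → ℂ} (hZ : ZFam Z) {q : ℂ} (hq : q^2 + q + 1 = 0) {ι : Type*} {l : Filter ι}
    (n : ℕ) (φ : ℂ) (C B : List ℂ)
    (hC : ∀ z ∈ closedBall (1:ℂ) (1/2), ∀ v ∈ C, v - (q * z + q^2 * z⁻¹) ≠ 0)
    (Pa PL Pb : Polynomial ℂ)
    (hPa : ∀ x, Z (x :: List.replicate (n+1) 2) = Pa.eval x)
    (hPL : ∀ x, Z (x :: (List.replicate (n+1) 2 ++ C)) = PL.eval x)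
    (hPb : ∀ x, Z (x :: B) = Pb.eval x)
    (X : ι → Fin (n+1) → ℂ) (hX : ∀ i, Tendsto (fun s => X s i) l (𝓝 1))
    (hinj : ∀ᶠ s in l, Function.Injective (nodes (X s))) :
    Tendsto (fun s => 2 * R Z (fun i => X s i + (X s i)⁻¹) φ C B) l
      (𝓝 (PowerSeries.coeff (2*n+1) (Phi q n φ C Pa PL Pb))) := by
  have h2pi : (2 * (π:ℂ) * Complex.I) ≠ 0 := by
    simp [Real.pi_ne_zero]
  -- the integral
  set I : (Fin (n+1) → ℂ) → ℂ := fun X => ∮ z in C(1, 1/2),
    Ff Z q (fun i => X i + (X i)⁻¹) φ C B z / ∏ j, (z - nodes X j) with hI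
  have hopen : IsOpen (UU n) := by
    have : UU n = ⋂ i, {X : Fin (n+1) → ℂ | ‖X i - 1‖ < 1/4} := by
      ext X; simp [UU]
    rw [this]
    refine isOpen_iInter_of_finite fun i => isOpen_lt ?_ continuous_const
    fun_prop
  have h1 : (fun _ => 1 : Fin (n+1) → ℂ) ∈ UU n := by
    intro i; simp
  have hXt : Tendsto X l (𝓝 (fun _ => 1)) := tendsto_pi_nhds.mpr hX
  have hcont : ContinuousAt I (fun _ => 1) := (cont_int hZ φ C B hC).continuousAt (hopen.mem_nhds h1)
  have ht : Tendsto (fun s => (2 * (π:ℂ) * Complex.I)⁻¹ * I (X s)) l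
      (𝓝 ((2 * (π:ℂ) * Complex.I)⁻¹ * I (fun _ => 1))) :=
    (hcont.tendsto.comp hXt).const_mul _
  have hval : (2 * (π:ℂ) * Complex.I)⁻¹ * I (fun _ => 1) =
      PowerSeries.coeff (2*n+1) (Phi q n φ C Pa PL Pb) := by
    have e1 : (fun i : Fin (n+1) => (1:ℂ) + (1:ℂ)⁻¹) = fun _ => 2 := by
      funext i; norm_num
    have hrep : List.ofFn (fun _ : Fin (n+1) => (2:ℂ)) = List.replicate (n+1) 2 := by
      rw [List.ofFn_const]
    have hrel := rel_Ff (Z := Z) (q := q) (fun _ : Fin (n+1) => (2:ℂ)) φ C B hC Pa PL Pb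
      (by rw [hrep]; exact hPa) (by rw [hrep]; exact hPL) hPb
    have hres := hrel.residue (by norm_num) (2*n+1)
    rw [hI]
    simp only [e1]
    have e2 : ∀ z : ℂ, ∏ j, (z - nodes (fun _ : Fin (n+1) => (1:ℂ)) j) = (z - 1)^(2*n+1+1) := by
      intro z
      have : ∀ j, nodes (fun _ : Fin (n+1) => (1:ℂ)) j = 1 := by
        intro j; unfold nodes; split_ifs <;> simp
      simp only [this, prod_const, card_univ, Fintype.card_prod, Fintype.card_fin, Fintype.card_bool]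
      congr 1
      ring
    simp only [e2]
    rw [hres]
    field_simp
  rw [hval] at ht
  refine ht.congr' ?_
  filter_upwards [hinj, hXt.eventually (hopen.mem_nhds h1)] with s hs hsU
  have h3 := circle_lagrange (nodes (X s)) hs (fun j => UU_nodes hsU j)
    (Ff Z q (fun i => X s i + (X s i)⁻¹) φ C B)
    ((diff_Ff hZ _ φ C B hC).diffContOnCl_ball subset_rfl)
  have h4 := sum_nodes hZ hq (X s) (UU_ne hsU) hs φ C B
    (fun j v hv => hC _ (ball_subset_closedBall (UU_nodes hsU j)) v hv)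
  rw [h4] at h3
  rw [hI]
  simp only
  rw [h3]
  field_simp

end Pool.Agent.H190R3.Cardy
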