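import Pool.Agent.H492C.Defs
import Pool.Agent.H988R2.Perc.T19
import Pool.Agent.H492C.P1
import Pool.Agent.H492C.P2
import Pool.Agent.H492C.G1
import Pool.Agent.H492C.G2

/-! Task C1: the lower cup (helper200's proof, inputs imported). -/

namespace Pool.Agent.H190R3.CardyFin

open Pool.Agent.H492C

open Pool.Agent.H988R2.Perc hiding X
open Finset Polynomial

namespace C1



/-- move the last `A` variable to the front -/
theorem GR_rotA (w : ℂ) (B : List ℂ) (hB : Odd B.length) (h0B : ∀ z ∈ B, z ≠ 0) (x : ℂ) (hx : x ≠ 0) :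
    ∀ (t s : List ℂ), Even (s.length + t.length) → (∀ z ∈ s ++ t, z ≠ 0) →
      GR (s ++ (t ++ [x])) w B = GR (s ++ (x :: t)) w B := by
  intro t
  induction t with
  | nil => intro s _ _; rfl
  | cons y t ih =>
    intro s hs h0
    have h1 := ih (s ++ [y]) (by
      rw [List.length_append, List.length_singleton]
      rw [List.length_cons] at hs
      convert hs using 1
      ring) (by
      intro z hz
      apply h0 z
      rw [List.append_assoc, List.singleton_append] at hz
      exact hz)
    rw [List.append_assoc, List.append_assoc, List.singleton_append, List.singleton_append] at h1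
    rw [List.cons_append, h1]
    refine GR_swapA s t B x y w ?_ hB hx (h0 y (by simp)) ?_
    · rw [List.length_cons] at hs
      obtain ⟨k, hk⟩ := hs
      exact ⟨k - 1, by omega⟩
    · intro z hz
      rw [List.mem_append, List.mem_append] at hz
      rcases hz with (hz | hz) | hz
      · exact h0 z (by simp [hz])
      · exact h0 z (by simp [hz])
      · exact h0B z hz

theorem GR_rotB (A : List ℂ) (hA : Odd A.length) (h0A : ∀ z ∈ A, z ≠ 0) (w x : ℂ) (hx : x ≠ 0) :
    ∀ (t s : List ℂ), Even (s.length + t.length) → (∀ z ∈ s ++ t, z ≠ 0) →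
      GR A w (s ++ (t ++ [x])) = GR A w (s ++ (x :: t)) := by
  intro t
  induction t with
  | nil => intro s _ _; rfl
  | cons y t ih =>
    intro s hs h0
    have h1 := ih (s ++ [y]) (by
      rw [List.length_append, List.length_singleton]
      rw [List.length_cons] at hs
      convert hs using 1
      ring) (by
      intro z hz
      apply h0 z
      rw [List.append_assoc, List.singleton_append] at hz
      exact hz)
    rw [List.append_assoc, List.append_assoc, List.singleton_append, List.singleton_append] at h1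
    rw [List.cons_append, h1]
    refine GR_swapB A s t x y w hA ?_ hx (h0 y (by simp)) ?_
    · rw [List.length_cons] at hs
      obtain ⟨k, hk⟩ := hs
      exact ⟨k - 1, by omega⟩
    · intro z hz
      rw [List.mem_append, List.mem_append] at hz
      rcases hz with (hz | hz) | hz
      · exact h0A z hz
      · exact h0 z (by simp [hz])
      · exact h0 z (by simp [hz])

/-- inversion of the last `A` variable -/
theorem GR_invA' (A B : List ℂ) (x w : ℂ) (hA : Even A.length) (hB : Odd B.length) (hx : x ≠ 0)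
    (h0 : ∀ z ∈ A ++ B, z ≠ 0) :
    GR (A ++ [x]) w B = x^(B.length + 1) * GR (A ++ [x⁻¹]) w B := by
  have h0A : ∀ z ∈ A, z ≠ 0 := fun z hz => h0 z (List.mem_append_left _ hz)
  have h0B : ∀ z ∈ B, z ≠ 0 := fun z hz => h0 z (List.mem_append_right _ hz)
  have e1 := GR_rotA w B hB h0B x hx A [] (by simpa using hA) (by simpa using h0A)
  have e2 := GR_rotA w B hB h0B x⁻¹ (inv_ne_zero hx) A [] (by simpa using hA) (by simpa using h0A)
  simp only [List.nil_append] at e1 e2
  rw [e1, e2]
  exact GR_invA A B x w hA hB hx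

/-- inversion of the first `B` variable -/
theorem GR_invB' (A B : List ℂ) (x w : ℂ) (hA : Odd A.length) (hB : Even B.length) (hx : x ≠ 0)
    (h0 : ∀ z ∈ A ++ B, z ≠ 0) :
    GR A w (x :: B) = x^(A.length + 1) * GR A w (x⁻¹ :: B) := by
  have h0A : ∀ z ∈ A, z ≠ 0 := fun z hz => h0 z (List.mem_append_left _ hz)
  have h0B : ∀ z ∈ B, z ≠ 0 := fun z hz => h0 z (List.mem_append_right _ hz)
  have e1 := GR_rotB A hA h0A w x hx B [] (by simpa using hB) (by simpa using h0B)
  have e2 := GR_rotB A hA h0A w x⁻¹ (inv_ne_zero hx) B [] (by simpa using hB) (by simpa using h0B)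
  simp only [List.nil_append] at e1 e2
  rw [← e1, ← e2]
  exact GR_invB A B x w hA hB hx

/-- the cup functional on the `A` side -/
noncomputable def EA (A B : List ℂ) (u : ℂ) : ℂ :=
  pairG (A.length + 1) (A.length + 1 + 1 + B.length)
    (Finsupp.mapDomain (St.ins A.length) (Psi (A ++ (B ++ [0]))))
    (comb2 ((A.length + 1 + 1) / 2) (up1 (A ++ [u])) (up1 B))

theorem cupA_val (A B : List ℂ) (u : ℂ) (hA : Even A.length) (hB : Odd B.length) :
    GR (A ++ [u]) (q^2 * u) B = fac u (A ++ (B ++ [0])) * EA A B u := by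
  have hpar : Even (A.length + (B ++ [0]).length) := by
    rw [List.length_append, List.length_singleton]
    exact hA.add hB.add_one
  have h1 := Psi_rec A (B ++ [0]) u hpar
  unfold GR EA
  have hl : (A ++ [u]).length = A.length + 1 := by simp
  rw [hl, List.append_assoc, List.singleton_append, h1, pairG_smul_left]

theorem up1A (A : List ℂ) (u : ℂ) (hA : Even A.length) (hu : u ≠ 0) :
    up1 (A ++ [u]) = (u⁻¹)^A.length • up1 (A ++ [u⁻¹]) := by
  unfold up1
  have h1 := Psi_inv0 u⁻¹ (A.map (fun x => x⁻¹)) (inv_ne_zero hu) (by rw [List.length_map]; exact hA)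
  rw [List.length_map] at h1
  have hm : ∀ z : ℂ, (A ++ [z]).map (fun x => x⁻¹) ++ [0] = A.map (fun x => x⁻¹) ++ [z⁻¹, 0] := by
    intro z; simp
  rw [hm, hm, h1]

theorem EA_inv (A B : List ℂ) (u : ℂ) (hA : Even A.length) (hu : u ≠ 0) :
    EA A B u = (u⁻¹)^A.length * EA A B u⁻¹ := by
  unfold EA
  rw [up1A A u hA hu, comb2_smul_left, pairG_smul_right]

/-- the cup functional on the `B` side -/
noncomputable def EB (A B : List ℂ) (v : ℂ) : ℂ :=
  pairG A.length (A.length + 1 + (B.length + 1))
    (Finsupp.mapDomain (St.ins A.length) (Psi (A ++ (B ++ [0]))))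
    (comb2 ((A.length + 1) / 2) (up1 A) (up1 (v :: B)))

theorem cupB_val (A B : List ℂ) (v : ℂ) (hA : Odd A.length) (hB : Even B.length) :
    GR A (q * v) (v :: B) = fac (q * v) (A ++ (B ++ [0])) * EB A B v := by
  have hpar : Even (A.length + (B ++ [0]).length) := by
    rw [List.length_append, List.length_singleton]
    exact hA.add_odd hB.add_one
  have h1 := Psi_rec A (B ++ [0]) (q * v) hpar
  have h2 : q^2 * (q * v) = v := by
    have : q^2 * (q * v) = q^3 * v := by ring
    rw [this, q_cube, one_mul]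
  rw [h2] at h1
  unfold GR EB
  rw [List.length_cons, List.cons_append, h1, pairG_smul_left]

theorem up1B (B : List ℂ) (v : ℂ) (hB : Even B.length) (hv : v ≠ 0) :
    up1 (v :: B) = (v⁻¹)^B.length • up1 (v⁻¹ :: B) := by
  unfold up1
  have h1 := Psi_inv1 v⁻¹ (B.map (fun x => x⁻¹) ++ [0]) (inv_ne_zero hv) (by
    rw [List.length_append, List.length_map, List.length_singleton]; exact hB.add_one)
  rw [List.length_append, List.length_map, List.length_singleton, Nat.add_sub_cancel] at h1
  rw [List.map_cons, List.map_cons, List.cons_append, List.cons_append, h1]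

theorem EB_inv (A B : List ℂ) (v : ℂ) (hB : Even B.length) (hv : v ≠ 0) :
    EB A B v = (v⁻¹)^B.length * EB A B v⁻¹ := by
  unfold EB
  rw [up1B B v hB hv, comb2_smul_right, pairG_smul_right]

end C1

open C1 in
theorem cupA (A B : List ℂ) (u : ℂ) (hA : Even A.length) (hB : Odd B.length) (hu : u ≠ 0)
    (h0 : ∀ z ∈ A ++ B, z ≠ 0) :
    GR (A ++ [u]) (q^2 * u) B * (u^(A.length + 1 + B.length) * fac u⁻¹ (A ++ (B ++ [0]))) =
      GR (A ++ [u]) (q^2 * u⁻¹) B * fac u (A ++ (B ++ [0])) := by
  rw [GR_invA' A B u (q^2 * u⁻¹) hA hB hu h0, cupA_val A B u hA hB, cupA_val A B u⁻¹ hA hB,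
    EA_inv A B u hA hu]
  have h1 : u^A.length * (u⁻¹)^A.length = 1 := by
    rw [← mul_pow, mul_inv_cancel₀ hu, one_pow]
  have h2 : u^(A.length + 1 + B.length) = u^A.length * u^(B.length + 1) := by ring
  rw [h2]
  linear_combination (fac u (A ++ (B ++ [0])) * EA A B u⁻¹ * u^(B.length + 1) *
    fac u⁻¹ (A ++ (B ++ [0]))) * h1

open C1 in
theorem cupB (A B : List ℂ) (v : ℂ) (hA : Odd A.length) (hB : Even B.length) (hv : v ≠ 0)
    (h0 : ∀ z ∈ A ++ B, z ≠ 0) :
    GR A (q * v) (v :: B) * (v^(A.length + 1 + B.length) * fac (q * v⁻¹) (A ++ (B ++ [0]))) =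
      GR A (q * v⁻¹) (v :: B) * fac (q * v) (A ++ (B ++ [0])) := by
  rw [GR_invB' A B v (q * v⁻¹) hA hB hv h0, cupB_val A B v hA hB, cupB_val A B v⁻¹ hA hB,
    EB_inv A B v hB hv]
  have h1 : v^B.length * (v⁻¹)^B.length = 1 := by
    rw [← mul_pow, mul_inv_cancel₀ hv, one_pow]
  have h2 : v^(A.length + 1 + B.length) = v^B.length * v^(A.length + 1) := by ring
  rw [h2]
  linear_combination (fac (q * v) (A ++ (B ++ [0])) * EB A B v⁻¹ * v^(A.length + 1) *
    fac (q * v⁻¹) (A ++ (B ++ [0]))) * h1

end Pool.Agent.H190R3.CardyFin
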