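import Mathlib

/-!
Room Cardy, block B1 (helper190): circle integrals.
-/

namespace Pool.Agent.H190R3.Cardy

open Finset Metric Real

/-- partial fractions and Cauchy's formula for distinct nodes -/
theorem circle_lagrange {J : Type*} [Fintype J] [DecidableEq J] [Nonempty J] {c : ℂ} {r : ℝ}
    (p : J → ℂ) (hp : Function.Injective p) (hb : ∀ j, p j ∈ ball c r) (f : ℂ → ℂ)
    (hf : DiffContOnCl ℂ f (ball c r)) :
    (∮ z in C(c, r), f z / ∏ j, (z - p j)) =
      2 * π * Complex.I * ∑ j, f (p j) / ∏ i ∈ univ.erase j, (p j - p i) := by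
  have hr : 0 < r := by
    obtain ⟨j⟩ := (inferInstance : Nonempty J)
    exact pos_of_mem_ball (hb j)
  have hinj : Set.InjOn p (univ : Finset J) := hp.injOn
  have hkey : ∀ z ∈ sphere c r, f z / ∏ j, (z - p j) =
      ∑ j, (∏ i ∈ univ.erase j, (p j - p i))⁻¹ * ((z - p j)⁻¹ • f z) := by
    intro z hz
    have hzp : ∀ j ∈ (univ : Finset J), z ≠ p j := by
      intro j _ h
      have h1 := hb j
      rw [← h, mem_ball] at h1
      rw [mem_sphere] at hz
      exact absurd hz h1.ne
    have h1 := Lagrange.eval_interpolate_not_at_node (s := univ) (v := p) (1 : J → ℂ) hzp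
    rw [Lagrange.interpolate_one hinj univ_nonempty, Polynomial.eval_one, Lagrange.eval_nodal] at h1
    have h3 : (∏ j, (z - p j))⁻¹ = ∑ i, Lagrange.nodalWeight univ p i * (z - p i)⁻¹ * 1 := by
      refine inv_eq_of_mul_eq_one_right ?_
      exact h1.symm
    rw [div_eq_mul_inv, h3, mul_sum]
    refine sum_congr rfl fun j _ => ?_
    rw [Lagrange.nodalWeight, prod_inv_distrib, smul_eq_mul]
    ring
  rw [circleIntegral.integral_congr hr.le hkey, circleIntegral.integral_fun_sum]
  · rw [mul_sum]
    refine sum_congr rfl fun j _ => ?_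
    rw [circleIntegral.integral_const_mul, hf.circleIntegral_sub_inv_smul (hb j)]
    rw [smul_eq_mul]
    ring
  · intro j _
    apply ContinuousOn.circleIntegrable hr.le
    have h1 : ContinuousOn (fun z : ℂ => z - p j) (sphere c r) := by fun_prop
    have h2 : ∀ z ∈ sphere c r, z - p j ≠ 0 := by
      intro z hz h
      have h1 := hb j
      rw [← sub_eq_zero.mp h, mem_ball] at h1
      rw [mem_sphere] at hz
      exact absurd hz h1.ne
    exact continuousOn_const.mul (ContinuousOn.smul (h1.inv₀ h2)
      ((hf.continuousOn_ball).mono sphere_subset_closedBall))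

end Pool.Agent.H190R3.Cardy
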