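import Pool.Agent.H492C.Defs
import Pool.Agent.H136R2.Cardy.Defs
import Pool.Agent.H31C.Stubs2

/-!
(A2), assembly (helper190): the output data of the qKZ part at the homogeneous point.
-/

namespace Pool.Agent.H190R3.CardyFin

open Pool.Agent.H988R2.Perc hiding X
open Pool.Agent.H492C
open Finset Polynomial
open Pool.Agent.H136R2.Cardy (pp dA dB Data)

theorem Mp_pp (n : ℕ) (P : ℂ[X]) : Mp (List.replicate (2*n) 1) P = pp n P := by
  unfold Mp pp
  rw [List.map_replicate, List.prod_replicate]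
  simp only [inv_one, map_one]
  have : ((X - 1) * (X - 1) : ℂ[X])^(2*n) = (X-1)^(4*n) := by
    rw [← pow_two, ← pow_mul]; congr 1; ring
  rw [this]
  ring

theorem natDegree_fac_le (n : ℕ) : ((X + 1) * (X - 1)^(4*n+1) : ℂ[X]).natDegree ≤ 4*n+2 := by
  refine (natDegree_mul_le).trans ?_
  have h2 : (X + 1 : ℂ[X]).natDegree ≤ 1 := by
    have := natDegree_X_add_C (1:ℂ)
    rw [map_one] at this
    exact this.le
  have h3 : ((X - 1 : ℂ[X])^(4*n+1)).natDegree ≤ 4*n+1 := by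
    refine (natDegree_pow_le).trans ?_
    have := natDegree_X_sub_C (1:ℂ)
    rw [map_one] at this
    rw [this]; omega
  omega

theorem natDegree_pp_le (n : ℕ) (P : ℂ[X]) (hP : P.natDegree ≤ 2*n) : (pp n P).natDegree ≤ 6*n+2 := by
  unfold pp
  refine (natDegree_mul_le).trans ?_
  have h1 := natDegree_fac_le n
  omega

/-- evaluation of the reflected polynomial -/
theorem eval_reflect {N : ℕ} (P : ℂ[X]) (hP : P.natDegree ≤ N) {x : ℂ} (hx : x ≠ 0) :
    (reflect N P).eval x = x^N * P.eval x⁻¹ := by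
  have : Invertible x⁻¹ := invertibleOfNonzero (inv_ne_zero hx)
  have h := Polynomial.eval₂_reflect_mul_pow (RingHom.id ℂ) x⁻¹ N P hP
  rw [invOf_eq_inv, inv_inv, Polynomial.eval₂_id, Polynomial.eval₂_id] at h
  rw [← h, inv_pow]
  field_simp

theorem ext_ne {P Q : ℂ[X]} (h : ∀ w : ℂ, w ≠ 0 → P.eval w = Q.eval w) : P = Q := by
  apply Polynomial.eq_of_infinite_eval_eq
  refine Set.Infinite.mono (s := {w : ℂ | w ≠ 0}) (fun w hw => h w hw) ?_
  exact (Set.finite_singleton (0:ℂ)).infinite_compl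

theorem q6 (n : ℕ) : q^(6*n+2) = q^2 := by
  rw [show 6*n+2 = 3*(2*n)+2 by ring, pow_add, pow_mul, q_cube, one_pow, one_mul]

theorem dA_eq (n : ℕ) (P K : ℂ[X]) (hP : P.natDegree ≤ 2*n)
    (hK : ∀ w, w ≠ 0 → K.eval w = (pp n P).eval (q^2 * w) - w^(6*n+2) * (pp n P).eval (q^2 * w⁻¹)) :
    dA q n (pp n P) = C q * K := by
  apply ext_ne
  intro w hw
  have hq0 := q_ne_zero
  have hq3 := q_cube
  unfold dA
  simp only [eval_sub, eval_mul, eval_C, eval_comp, eval_X]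
  rw [hK w hw, eval_reflect _ (natDegree_pp_le n P hP) (mul_ne_zero hq0 hw)]
  have e1 : (q * w)⁻¹ = q^2 * w⁻¹ := by
    rw [mul_inv]
    congr 1
    exact inv_eq_of_mul_eq_one_left (by linear_combination hq3)
  rw [e1, mul_pow, q6]
  linear_combination (- q * w^(6*n+2) * eval (q^2 * w⁻¹) (pp n P)) * hq3

theorem dB_eq (n : ℕ) (P K : ℂ[X]) (hP : P.natDegree ≤ 2*n)
    (hK : ∀ w, w ≠ 0 → K.eval w = (pp n P).eval (q * w) - w^(6*n+2) * (pp n P).eval (q * w⁻¹)) :
    dB q n (pp n P) = C (q^2) * K := by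
  apply ext_ne
  intro w hw
  have hq0 := q_ne_zero
  have hq3 := q_cube
  unfold dB
  simp only [eval_sub, eval_mul, eval_C, eval_comp, eval_X]
  rw [hK w hw, eval_reflect _ (natDegree_pp_le n P hP) (mul_ne_zero (pow_ne_zero 2 hq0) hw)]
  have e1 : (q^2 * w)⁻¹ = q * w⁻¹ := by
    rw [mul_inv]
    congr 1
    exact inv_eq_of_mul_eq_one_left (by linear_combination hq3)
  have e2 : (q^2 * w)^(6*n+2) = q^4 * w^(6*n+2) := by
    rw [mul_pow, ← pow_mul, show 2*(6*n+2) = (6*n+2)*2 by ring, pow_mul, q6]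
    ring
  rw [e1, e2]
  linear_combination (- q^2 * w^(6*n+2) * eval (q * w⁻¹) (pp n P)) * hq3

theorem reflect_pp (n : ℕ) (P : ℂ[X]) (hP : P.natDegree ≤ 2*n) (hs : reflect (2*n) P = P) :
    reflect (6*n+2) (pp n P) = - pp n P := by
  apply ext_ne
  intro w hw
  rw [eval_reflect _ (natDegree_pp_le n P hP) hw]
  have h1 : P.eval w = w^(2*n) * P.eval w⁻¹ := by
    conv_lhs => rw [← hs]
    exact eval_reflect P hP hw
  unfold pp
  simp only [eval_neg, eval_mul, eval_add, eval_sub, eval_pow, eval_X, eval_one]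
  rw [h1]
  have h2 : w^(6*n+2) = w * w^(4*n+1) * w^(2*n) := by ring
  have h3 : w^(4*n+1) * (w⁻¹ - 1)^(4*n+1) = - (w - 1)^(4*n+1) := by
    rw [← mul_pow]
    have : w * (w⁻¹ - 1) = - (w - 1) := by
      rw [mul_sub, mul_inv_cancel₀ hw]; ring
    rw [this, Odd.neg_pow ⟨2*n, by ring⟩]
  have h4 : w * (w⁻¹ + 1) = w + 1 := by
    rw [mul_add, mul_inv_cancel₀ hw]; ring
  calc w^(6*n+2) * ((w⁻¹ + 1) * (w⁻¹ - 1)^(4*n+1) * eval w⁻¹ P) =
      (w * (w⁻¹ + 1)) * (w^(4*n+1) * (w⁻¹ - 1)^(4*n+1)) * (w^(2*n) * eval w⁻¹ P) := by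
        rw [h2]; ring
    _ = _ := by rw [h3, h4]; ring

/-- the assembly -/
theorem fin_of
    (h1 : ∀ A B : List ℂ, Odd A.length → Odd B.length →
      ∃ P : ℂ[X], P.natDegree ≤ A.length + B.length ∧ ∀ w, GR A w B = P.eval w)
    (h2 : ∀ A B : List ℂ, Odd A.length → Odd B.length →
      ∃ P : ℂ[X], P.natDegree ≤ A.length + B.length ∧ ∀ w, TT A w B = P.eval w)
    (h3 : ∀ A B : List ℂ, Odd A.length → Odd B.length → (∀ z ∈ A ++ B, z ≠ 0) →
      GR A 0 B = - q^2 * TT A 0 B)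
    (h4 : ∀ A B : List ℂ, Odd A.length → Odd B.length → (∀ z ∈ A ++ B, z ≠ 0) →
      cw (A.length + B.length) (A.length + B.length) (fun w => GR A w B) =
      - q * cw (A.length + B.length) (A.length + B.length) (fun w => TT A w B))
    (h5 : ∀ (m k : ℕ) (P : ℂ[X]), P.natDegree ≤ m → cw m k (fun w => P.eval w) = P.coeff k)
    (h6 : ∀ (a b : ℕ), Odd a → Odd b → ∀ (P : ℂ[X]),
      (∀ w, GR (List.replicate a 1) w (List.replicate b 1) = P.eval w) →
      ∃ K : ℂ[X], (X - C 1)^(2*a) ∣ K ∧ ∀ w, w ≠ 0 → K.eval w =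
      (Mp (List.replicate (a+b) 1) P).eval (q^2 * w) -
        w^(3 * (a + b) + 2) * (Mp (List.replicate (a+b) 1) P).eval (q^2 * w⁻¹))
    (h7 : ∀ (a b : ℕ), Odd a → Odd b → ∀ (P : ℂ[X]),
      (∀ w, GR (List.replicate a 1) w (List.replicate b 1) = P.eval w) →
      ∃ K : ℂ[X], (X - C 1)^(2*b) ∣ K ∧ ∀ w, w ≠ 0 → K.eval w =
      (Mp (List.replicate (a+b) 1) P).eval (q * w) -
        w^(3 * (a + b) + 2) * (Mp (List.replicate (a+b) 1) P).eval (q * w⁻¹))
    (h8 : ∀ (a b : ℕ), Odd a → Odd b → ∀ (P : ℂ[X]), P.natDegree ≤ a + b →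
      (∀ w, TT (List.replicate a 1) w (List.replicate b 1) = P.eval w) →
      P.reflect (a + b) = P ∧
      (∀ j, j % 3 = 1 → (Mp (List.replicate (a+b) 1) P).coeff (j + 3 * ((a + b) / 2)) = 0) ∧
      P.coeff 0 ≠ 0) : Pool.Agent.H31C.S_FIN := by
  intro a b n ha hb hn
  have hla : (List.replicate a (1:ℂ)).length = a := List.length_replicate
  have hlb : (List.replicate b (1:ℂ)).length = b := List.length_replicate
  have h0 : ∀ z ∈ List.replicate a (1:ℂ) ++ List.replicate b (1:ℂ), z ≠ 0 := by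
    intro z hz
    rw [List.mem_append, List.mem_replicate, List.mem_replicate] at hz
    rcases hz with ⟨_, h⟩ | ⟨_, h⟩ <;> rw [h] <;> exact one_ne_zero
  obtain ⟨G, hGd, hG⟩ := h1 (List.replicate a 1) (List.replicate b 1) (by rw [hla]; exact ha)
    (by rw [hlb]; exact hb)
  obtain ⟨T, hTd, hT⟩ := h2 (List.replicate a 1) (List.replicate b 1) (by rw [hla]; exact ha)
    (by rw [hlb]; exact hb)
  have hbot := h3 (List.replicate a 1) (List.replicate b 1) (by rw [hla]; exact ha)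
    (by rw [hlb]; exact hb) h0
  have htop := h4 (List.replicate a 1) (List.replicate b 1) (by rw [hla]; exact ha)
    (by rw [hlb]; exact hb) h0
  rw [hla, hlb] at hGd hTd htop
  simp only [hG, hT] at htop
  rw [h5 _ _ G hGd, h5 _ _ T hTd, hn] at htop
  obtain ⟨hTs, hT3, hT0⟩ := h8 a b ha hb T hTd hT
  obtain ⟨KA, hKA, hKA'⟩ := h6 a b ha hb G hG
  obtain ⟨KB, hKB, hKB'⟩ := h7 a b ha hb G hG
  rw [hn] at hGd hTd hTs hT3 hKA' hKB'
  simp only [Mp_pp] at hT3 hKA' hKB'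
  rw [show 3 * (2*n) + 2 = 6*n+2 by ring] at hKA' hKB'
  rw [show 3 * (2*n/2) = 3*n by omega] at hT3
  rw [hG, hT, ← coeff_zero_eq_eval_zero, ← coeff_zero_eq_eval_zero] at hbot
  have hT0' : T.coeff 0 = T.coeff (2*n) := by
    conv_lhs => rw [← hTs]
    rw [coeff_reflect, revAt_le (Nat.zero_le _), Nat.sub_zero]
  refine ⟨G, T, ?_, hG, hT⟩
  refine
    { hG := hGd
      hT := hTd
      hTs := hTs
      hT3 := ?_
      hne := by rw [← hT0']; exact hT0
      top := htop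
      bot := by rw [hbot, hT0']
      hA := ?_
      hB := ?_ }
  · intro k hk
    by_cases hkn : 3*n ≤ k
    · have := hT3 (k - 3*n) (by omega)
      rwa [show k - 3*n + 3*n = k by omega] at this
    · have hr := reflect_pp n T hTd hTs
      have h9 := congrArg (fun p => coeff p k) hr
      simp only [coeff_reflect, coeff_neg] at h9
      rw [revAt_le (by omega : k ≤ 6*n+2)] at h9
      have h10 := hT3 (6*n+2-k-3*n) (by omega)
      rw [show 6*n+2-k-3*n+3*n = 6*n+2-k by omega] at h10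
      rw [h10] at h9
      exact neg_eq_zero.mp h9.symm
  · rw [dA_eq n G KA hGd hKA']
    rw [map_one] at hKA
    exact Dvd.dvd.mul_left hKA _
  · rw [dB_eq n G KB hGd hKB']
    rw [map_one] at hKB
    exact Dvd.dvd.mul_left hKB _

end Pool.Agent.H190R3.CardyFin
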