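import Pool.Agent.H190R3.Cardy.Fin0
import Pool.Agent.H190R3.Cardy.C1x
import Pool.Agent.H492C.C2h
import Pool.Agent.H492C.H1A
import Pool.Agent.H492C.G4
import Pool.Agent.H492C.G6
import Pool.Agent.H492C.W1
import Pool.Agent.H342C.H2

/-!
(A2), assembly (helper190), with the remaining inputs `GR_bottom`, `GR_top` as hypotheses.
-/

namespace Pool.Agent.H190R3.CardyFin

open Pool.Agent.H988R2.Perc hiding X
open Pool.Agent.H492C
open Finset Polynomial

theorem starA (A B : List ℂ) (u : ℂ) (hA : Odd A.length) (hB : Odd B.length) (hu : u ∈ A)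
    (h0 : ∀ z ∈ A ++ B, z ≠ 0) (P : ℂ[X]) (hP : ∀ w, GR A w B = P.eval w)
    (hg : fac u (A.erase u ++ B) ≠ 0) :
    (Mp (A ++ B) P).eval (q^2 * u) =
      u^(3 * (A.length + B.length) + 2) * (Mp (A ++ B) P).eval (q^2 * u⁻¹) :=
  starA_of GR_swapA cupA A B u hA hB hu h0 P hP hg

theorem starB (A B : List ℂ) (v : ℂ) (hA : Odd A.length) (hB : Odd B.length) (hv : v ∈ B)
    (h0 : ∀ z ∈ A ++ B, z ≠ 0) (P : ℂ[X]) (hP : ∀ w, GR A w B = P.eval w)
    (hg : fac (q * v) (A ++ B.erase v) ≠ 0) :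
    (Mp (A ++ B) P).eval (q * v) =
      v^(3 * (A.length + B.length) + 2) * (Mp (A ++ B) P).eval (q * v⁻¹) :=
  starB_of GR_swapB cupB A B v hA hB hv h0 P hP hg

theorem fin_of2
    (h3 : ∀ A B : List ℂ, Odd A.length → Odd B.length → (∀ z ∈ A ++ B, z ≠ 0) →
      GR A 0 B = - q^2 * TT A 0 B)
    (h4 : ∀ A B : List ℂ, Odd A.length → Odd B.length → (∀ z ∈ A ++ B, z ≠ 0) →
      cw (A.length + B.length) (A.length + B.length) (fun w => GR A w B) =
      - q * cw (A.length + B.length) (A.length + B.length) (fun w => TT A w B)) :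
    Pool.Agent.H31C.S_FIN := by
  refine fin_of GR_poly_w TT_poly_w h3 h4 cw_eq ?_ ?_ ?_
  · intro a b ha hb P hP
    exact hom_A_of GR_poly_w (fun A B u h1 h2 h3 h4 P h5 h6 => starA A B u h1 h2 h3 h4 P h5 h6)
      a b ha hb P hP
  · intro a b ha hb P hP
    exact hom_B_of GR_poly_w (fun A B u h1 h2 h3 h4 P h5 h6 => starB A B u h1 h2 h3 h4 P h5 h6)
      a b ha hb P hP
  · intro a b ha hb P _ hP
    obtain ⟨h1, h2, h5⟩ := Pool.Agent.H342C.TT_hom a b ha hb P hP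
    exact ⟨h1, fun j hj => h2 _ (by omega), h5⟩

end Pool.Agent.H190R3.CardyFin
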