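import Pool.Agent.H190R3.Cardy.Fin1
import Pool.Agent.H988C.BT31
import Pool.Agent.H492C.Bridge

/-!
(A2), final (helper190): `S_FIN`.
-/

namespace Pool.Agent.H190R3.CardyFin

open Pool.Agent.H988R2.Perc hiding X
open Pool.Agent.H492C
open Finset Polynomial

theorem fin : Pool.Agent.H31C.S_FIN := by
  refine fin_of2 ?_ ?_
  · intro A B hA hB h0
    rw [GR_bridge A B 0 hA, TT_bridge]
    exact Pool.Agent.H988C.GR31_bottom A B hA hB (fun y hy => h0 y (by simp [hy]))
  · intro A B hA hB h0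
    obtain ⟨P, hPd, hP⟩ := GR_poly_w A B hA hB
    obtain ⟨T, hTd, hT⟩ := TT_poly_w A B hA hB
    simp only [hP, hT]
    rw [cw_eq _ _ P hPd, cw_eq _ _ T hTd]
    refine Pool.Agent.H988C.GR31_top A B hA hB P T hPd hTd ?_ ?_
    · intro W; rw [← GR_bridge A B W hA]; exact hP W
    · intro W; rw [← TT_bridge]; exact hT W

end Pool.Agent.H190R3.CardyFin
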